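import Pool.Agent.Helper57_C2.Stmts
import Pool.Agent.Helper35_K9.CHV
import Pool.Agent.Helper69_K9.Fmg
import Pool.Agent.Helper75_K9.LBR
import Pool.Agent.Helper75_PP.Transport

/-!
# Squad C2, row CHN: the alternating sum is a difference of two numbers of modular characters
-/

open scoped BigOperators

noncomputable section

namespace Pool.Agent.PP.C2.H13

open Pool.Agent.Helper51_AWC Pool.Agent.Helper79_WRA Pool.Agent.PP Pool.Agent.PP.KF
open Pool.Agent.PP.K9

attribute [local instance] Ideal.Quotient.field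

/-! ### 1. Invariance under conjugation -/

section inv

variable {F : Type} [Field F]

theorem push_equiv {A A' B B' : Type} [Group A] [Group A'] [Group B] [Group B']
    (c : A ≃* A') (p : A →* B) (p' : A' →* B') (φ : B ≃* B') (h : ∀ x, p' (c x) = φ (p x))
    (a : A → F) (a' : A' → F) (ha : ∀ x, a' (c x) = a x) (y : B) :
    PP.H75.push p' a' (φ y) = PP.H75.push p a y := by
  unfold PP.H75.push
  rw [← finsum_comp_equiv c.toEquiv]
  refine finsum_congr fun x => ?_
  have h1 : (p' (c.toEquiv x) = φ y) = (p x = y) := by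
    apply propext
    change p' (c x) = φ y ↔ _
    rw [h x]
    exact φ.injective.eq_iff
  have h2 : a' (c.toEquiv x) = a x := ha x
  rw [h2]
  exact finsum_congr_Prop h1 (fun _ => rfl)

/-- the isomorphism of the normalisers -/
def cN {G : Type} [Group G] (g : G) (Q : Subgroup G) :
    Subgroup.normalizer (Q : Set G) ≃* Subgroup.normalizer ((conjS g Q : Subgroup G) : Set G) :=
  ((Subgroup.normalizer (Q : Set G)).equivMapOfInjective (MulAut.conj g).toMonoidHom
    (MulAut.conj g).injective).trans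
    (MulEquiv.subgroupCongr (BN.H9.norm_conjS g Q).symm)

theorem cN_coe {G : Type} [Group G] (g : G) (Q : Subgroup G)
    (x : Subgroup.normalizer (Q : Set G)) : ((cN g Q x : _) : G) = g * x * g⁻¹ := rfl

theorem yq_conj {G : Type} [Group G] [Finite G] (ℓ : ℕ) {e : G → F} (he : IsCl e) (g : G)
    (Q : Subgroup G) : yq ℓ (conjS g Q) e = yq ℓ Q e := by
  have hmap : (Q.subgroupOf (Subgroup.normalizer (Q : Set G))).map (cN g Q).toMonoidHom =
      (conjS g Q).subgroupOf (Subgroup.normalizer ((conjS g Q : Subgroup G) : Set G)) := by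
    ext x
    constructor
    · rintro ⟨y, hy, rfl⟩
      change g * (y : G) * g⁻¹ ∈ conjS g Q
      rw [mem_conjS]
      have h1 : g⁻¹ * (g * (y : G) * g⁻¹) * g = y := by group
      rw [h1]
      exact hy
    · intro hx
      have hx' : (x : G) ∈ conjS g Q := hx
      rw [mem_conjS] at hx'
      refine ⟨(cN g Q).symm x, ?_, (cN g Q).apply_symm_apply x⟩
      have h1 : ((cN g Q ((cN g Q).symm x)) : G) = x := by
        rw [(cN g Q).apply_symm_apply]
      rw [cN_coe] at h1
      change (((cN g Q).symm x : Subgroup.normalizer (Q : Set G)) : G) ∈ Q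
      have h2 : (((cN g Q).symm x : Subgroup.normalizer (Q : Set G)) : G) = g⁻¹ * x * g := by
        rw [← h1]; group
      rw [h2]
      exact hx'
  let φ := QuotientGroup.congr _ _ (cN g Q) hmap
  have h1 : ∀ x, QuotientGroup.mk' ((conjS g Q).subgroupOf
      (Subgroup.normalizer ((conjS g Q : Subgroup G) : Set G))) (cN g Q x) =
      φ (QuotientGroup.mk' (Q.subgroupOf (Subgroup.normalizer (Q : Set G))) x) :=
    fun x => rfl
  have h2 : ∀ x : Subgroup.normalizer (Q : Set G), br (conjS g Q) e (cN g Q x : G) = br Q e x := by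
    intro x
    rw [cN_coe]
    have h3 : g * (x : G) * g⁻¹ ∈ Subgroup.centralizer ((conjS g Q : Subgroup G) : Set G) ↔
        (x : G) ∈ Subgroup.centralizer (Q : Set G) := by
      rw [Subgroup.mem_centralizer_iff, Subgroup.mem_centralizer_iff]
      constructor
      · intro h y hy
        have h4 := h (g * y * g⁻¹) (by
          change g * y * g⁻¹ ∈ conjS g Q
          rw [mem_conjS]
          have h5 : g⁻¹ * (g * y * g⁻¹) * g = y := by group
          rw [h5]
          exact hy)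
        calc y * (x : G) = g⁻¹ * (g * y * g⁻¹ * (g * (x : G) * g⁻¹)) * g := by group
          _ = g⁻¹ * (g * (x : G) * g⁻¹ * (g * y * g⁻¹)) * g := by rw [h4]
          _ = (x : G) * y := by group
      · intro h y hy
        have h4 : g⁻¹ * y * g ∈ Q := mem_conjS.1 hy
        have h5 := h _ h4
        calc y * (g * (x : G) * g⁻¹) = g * (g⁻¹ * y * g * x) * g⁻¹ := by group
          _ = g * (x * (g⁻¹ * y * g)) * g⁻¹ := by rw [h5]
          _ = g * (x : G) * g⁻¹ * y := by group
    by_cases hx : (x : G) ∈ Subgroup.centralizer (Q : Set G)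
    · rw [H66.br_of_mem hx, H66.br_of_mem (h3.2 hx), he]
    · rw [H66.br_of_not_mem hx, H66.br_of_not_mem (fun h => hx (h3.1 h))]
  unfold yq
  have h3 := PP.H75.YY_equiv ℓ φ ⊤ (PP.H75.push (QuotientGroup.mk' ((conjS g Q).subgroupOf
      (Subgroup.normalizer ((conjS g Q : Subgroup G) : Set G))))
    (fun t : Subgroup.normalizer ((conjS g Q : Subgroup G) : Set G) => br (conjS g Q) e t))
  have h4 : (⊤ : Subgroup (Subgroup.normalizer (Q : Set G) ⧸
      Q.subgroupOf (Subgroup.normalizer (Q : Set G)))).map φ.toMonoidHom = ⊤ :=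
    Subgroup.map_top_of_surjective φ.toMonoidHom φ.surjective
  rw [h4] at h3
  rw [← h3]
  congr 1
  funext y
  exact push_equiv (cN g Q) _ _ φ h1 _ _ h2 y

end inv

/-! ### 2. The sum over the conjugates -/

open Classical in
theorem sum_conj {G : Type} [Group G] [Finite G] [Fintype (Subgroup G)] (V : Subgroup G)
    (f : Subgroup G → ℤ) (c : ℤ) (hf : ∀ g : G, f (conjS g V) =
      (Nat.card (Subgroup.normalizer (V : Set G)) : ℤ) * c) :
    ∑ W ∈ Finset.univ.filter (fun W : Subgroup G => K9.H35.CJ V W), f W = (Nat.card G : ℤ) * c := by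
  have h2 : ∀ W ∈ Finset.univ.filter (fun W : Subgroup G => K9.H35.CJ V W),
      f W = (Nat.card (Subgroup.normalizer (V : Set G)) : ℤ) * c := by
    intro W hW
    obtain ⟨-, g, rfl⟩ := Finset.mem_filter.1 hW
    exact hf g
  rw [Finset.sum_congr rfl h2, Finset.sum_const, nsmul_eq_mul, ← mul_assoc, ← K9.H35.card_conj V]
  push_cast
  ring

/-- the subgroup of the `ℓ`-th powers -/
def pwS {G : Type} [Group G] (ℓ : ℕ) (V : Subgroup G) (hV : ∀ a ∈ V, ∀ b ∈ V, a * b = b * a) :
    Subgroup G where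
  carrier := {x | ∃ y ∈ V, y ^ ℓ = x}
  mul_mem' := by
    rintro _ _ ⟨y, hy, rfl⟩ ⟨z, hz, rfl⟩
    exact ⟨y * z, mul_mem hy hz, (show Commute y z from hV y hy z hz).mul_pow ℓ⟩
  one_mem' := ⟨1, one_mem V, one_pow ℓ⟩
  inv_mem' := by
    rintro _ ⟨y, hy, rfl⟩
    exact ⟨y⁻¹, inv_mem hy, inv_pow y ℓ⟩

/-- CHN -/
theorem chn (hrec : RecStmt) (yqz : YqzStmt) (yqn : YqnStmt) (yqv : YqvStmt) : ChnStmt := by
  classical
  intro ℓ hℓ M _ hM n hn hind G _ _ e he V hV hT
  have hF : GoodF ℓ (FF M) := H50.fld ℓ hℓ.out M hM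
  have hfin : Fintype (Subgroup G) := Fintype.ofFinite _
  obtain ⟨Q₁, hQ₁⟩ : ∃ Q₁ : Subgroup G, ∀ x, x ∈ Q₁ ↔ ∃ y ∈ V, y ^ ℓ = x :=
    ⟨pwS ℓ V hT.comm, fun x => Iff.rfl⟩
  obtain ⟨f, hf, hTf, hyn⟩ := yqn ℓ M hM n hn G e he V hV hT Q₁ hQ₁
  obtain ⟨u, hu, huo⟩ := hT.gen
  have hQV : Q₁ ≤ V := by
    intro x hx
    obtain ⟨y, hy, rfl⟩ := (hQ₁ x).1 hx
    exact pow_mem hy ℓ
  have hVN : V ≤ Subgroup.normalizer (Q₁ : Set G) := by
    refine le_trans ?_ (Subgroup.centralizer_le_normalizer _)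
    intro a ha
    rw [Subgroup.mem_centralizer_iff]
    intro b hb
    exact hT.comm b (hQV hb) a ha
  have hl2 : 2 ≤ ℓ := hℓ.out.two_le
  -- `Q₁` is not trivial
  have hQ₁n : Q₁ ≠ ⊥ := by
    intro h0
    have h1 : u ^ ℓ ∈ Q₁ := (hQ₁ _).2 ⟨u, hu, rfl⟩
    rw [h0, Subgroup.mem_bot] at h1
    have h2 : ℓ ^ n ∣ ℓ := by
      rw [← huo]
      exact orderOf_dvd_of_pow_eq_one h1
    have h3 := Nat.le_of_dvd (by omega) h2
    have h4 : ℓ ^ 2 ≤ ℓ ^ n := Nat.pow_le_pow_right (by omega) hn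
    nlinarith
  have hVn : V ≠ ⊥ := by
    intro h0
    exact hQ₁n (eq_bot_iff.2 (h0 ▸ hQV))
  have hQ₁c : Nat.card Q₁ ≠ Nat.card V := by
    intro h0
    have h1 : Q₁ = V := Subgroup.eq_of_le_of_card_ge hQV h0.ge
    have h2 : u ∈ Q₁ := by rw [h1]; exact hu
    obtain ⟨y, hy, hyu⟩ := (hQ₁ u).1 h2
    have h3 : orderOf y = ℓ ^ (n + 1) := by
      apply orderOf_eq_prime_pow
      · intro h4
        have h5 : u ^ ℓ ^ (n - 1) = 1 := by
          rw [← hyu, ← pow_mul, ← pow_succ']
          have h6 : n - 1 + 1 = n := by omega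
          rw [h6]
          exact h4
        have h7 := orderOf_dvd_of_pow_eq_one h5
        rw [huo] at h7
        have h8 := (Nat.pow_dvd_pow_iff_le_right (x := ℓ) (by omega)).1 h7
        omega
      · rw [pow_succ', pow_mul, hyu, ← huo, pow_orderOf_eq_one]
    apply hT.ncyc
    have h4 : orderOf (⟨y, hy⟩ : V) = Nat.card V := by
      rw [Subgroup.orderOf_mk, h3, hT.card]
    exact isCyclic_of_orderOf_eq_card _ h4
  have hQ₁p : IsPGroup ℓ Q₁ := hV.pg.to_le hQV
  refine ⟨Subgroup.normalizer (Q₁ : Set G), inferInstance, inferInstance, f,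
    V.subgroupOf (Subgroup.normalizer (Q₁ : Set G)), hf, hTf, ?_, ?_⟩
  · refine ⟨?_, ?_, ?_, ?_⟩
    · intro a ha b hb
      exact Subtype.ext (hT.comm a ha b hb)
    · rw [Nat.card_congr (Subgroup.subgroupOfEquivOfLe hVN).toEquiv, hT.card]
    · refine ⟨⟨u, hVN hu⟩, hu, ?_⟩
      rw [Subgroup.orderOf_mk, huo]
    · intro hc
      apply hT.ncyc
      exact isCyclic_of_surjective (Subgroup.subgroupOfEquivOfLe hVN).toMonoidHom
        (Subgroup.subgroupOfEquivOfLe hVN).surjective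
  -- the sum
  rw [hrec ℓ (FF M) hF G e he.1, K9.H35.lnum_top, finsum_eq_sum_of_fintype]
  simp only [finsum_eq_if]
  rw [← Finset.sum_filter]
  have hsub : Finset.univ.filter (fun W : Subgroup G => K9.H35.CJ Q₁ W) ∪
      Finset.univ.filter (fun W : Subgroup G => K9.H35.CJ V W) ⊆
      Finset.univ.filter (fun Q : Subgroup G => IsPGroup ℓ Q ∧ Q ≠ ⊥) := by
    intro W hW
    rw [Finset.mem_union, Finset.mem_filter, Finset.mem_filter] at hW
    rw [Finset.mem_filter]
    refine ⟨Finset.mem_univ _, ?_⟩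
    rcases hW with ⟨-, g, rfl⟩ | ⟨-, g, rfl⟩
    · exact ⟨hQ₁p.map _, BN.H9.conjS_ne_bot hQ₁n g⟩
    · exact ⟨hV.pg.map _, BN.H9.conjS_ne_bot hVn g⟩
  have hdisj : Disjoint (Finset.univ.filter (fun W : Subgroup G => K9.H35.CJ Q₁ W))
      (Finset.univ.filter (fun W : Subgroup G => K9.H35.CJ V W)) := by
    rw [Finset.disjoint_left]
    intro W h1 h2
    obtain ⟨-, g, rfl⟩ := Finset.mem_filter.1 h1
    obtain ⟨-, g', hg'⟩ := Finset.mem_filter.1 h2
    apply hQ₁c
    rw [← card_conjS g Q₁, hg', card_conjS]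
  rw [← Finset.sum_subset hsub]
  · rw [Finset.sum_union hdisj]
    have s1 := sum_conj Q₁ (fun Q => (Nat.card Q : ℤ) * yq ℓ Q e)
      ((lb f : ℤ) - (lb (fun t : Subgroup.normalizer (V : Set G) => br V e t) : ℤ)) (by
        intro g
        rw [card_conjS, yq_conj ℓ he.1.1, hyn])
    have s2 := sum_conj V (fun Q => (Nat.card Q : ℤ) * yq ℓ Q e)
      (lb (fun t : Subgroup.normalizer (V : Set G) => br V e t) : ℤ) (by
        intro g
        rw [card_conjS, yq_conj ℓ he.1.1, yqv ℓ M hM G e he V hV V hV.pg rfl,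
          (K9.H75.lbr ℓ (FF M) hF G e he.1 V (Subgroup.normalizer (V : Set G)) hV.pg
            Subgroup.le_normalizer le_rfl).1]
        rfl)
    rw [s1, s2]
    change (Nat.card G : ℤ) * (lb e : ℤ) - _ = _
    ring
  · intro W hW hW2
    obtain ⟨-, hWp, hWn⟩ := Finset.mem_filter.1 hW
    rw [Finset.mem_union, Finset.mem_filter, Finset.mem_filter] at hW2
    push Not at hW2
    obtain ⟨hW3, hW4⟩ := hW2
    have hW3 := hW3 (Finset.mem_univ _)
    have hW4 := hW4 (Finset.mem_univ _)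
    by_cases hc : Nat.card W = Nat.card V
    · rw [yqv ℓ M hM G e he V hV W hWp hc]
      have h3 : ¬ Gd e W := by
        intro hg
        obtain ⟨g, hg2⟩ := (K9.H69.fmg ℓ M hM G e he V hV).1 W hWp hg
        apply hW4
        refine ⟨g, ?_⟩
        refine Subgroup.eq_of_le_of_card_ge hg2 ?_
        rw [card_conjS, hc]
      rw [(K9.H75.lbr ℓ (FF M) hF G e he.1 W (Subgroup.normalizer (W : Set G)) hWp
        Subgroup.le_normalizer le_rfl).2 h3, Nat.cast_zero, mul_zero]
    · rw [yqz ℓ M hM n hn hind G e he V hV hT Q₁ hQ₁ W hWp hWn hc hW3, mul_zero]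

end Pool.Agent.PP.C2.H13
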