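import Pool.Agent.Helper57_C2.Stmts
import Pool.Agent.Helper35_K9.CHQ
import Pool.Agent.Helper3_K9.Lbd
import Pool.Agent.Helper75_PP.Fin0
import Pool.Agent.Helper50_PP.Bid
import Pool.Agent.Helper50_PP.Ldp
import Pool.Agent.Helper50_PP.Dic
import Pool.Agent.Helper50_PP.Ffa
import Pool.Agent.Helper20_PP.Nls
import Pool.Agent.Helper20_PP.Ibr
import Pool.Agent.Helper63_PP.Smt
import Pool.Agent.Helper94_PP.Nch
import Pool.Agent.Helper96_PP.Trn

/-!
# Squad C2, row AWN: the alternating sum vanishes for defect groups of type `(ℓ ^ n, ℓ)`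
-/

open scoped BigOperators

noncomputable section

namespace Pool.Agent.PP.C2.H13

open Pool.Agent.Helper51_AWC Pool.Agent.Helper79_WRA Pool.Agent.PP Pool.Agent.PP.KF
open Pool.Agent.PP.K9

attribute [local instance] Ideal.Quotient.field

/-- a block with a nontrivial good `ℓ`-subgroup has positive defect -/
theorem pos_of_gd {F : Type} [Field F] {G : Type} [Group G] [Finite G] {ℓ : ℕ} [Fact ℓ.Prime]
    (hF : GoodF ℓ F) {e : G → F} (he : IsBlk e) {V : Subgroup G} (hp : IsPGroup ℓ V)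
    (hg : Gd e V) (hV : V ≠ ⊥) : Pos ℓ e ⊤ := by
  intro x _ hx
  rw [inf_top_eq] at hx
  -- an element of order `ℓ`
  obtain ⟨y, hy, hyo⟩ : ∃ y ∈ V, orderOf y = ℓ := by
    have : Nontrivial V := (Subgroup.nontrivial_iff_ne_bot V).2 hV
    obtain ⟨k, hk, hc⟩ := (IsPGroup.nontrivial_iff_card hp).1 this
    have h1 : ℓ ∣ Nat.card V := by
      rw [hc]
      exact dvd_pow_self ℓ hk.ne'
    obtain ⟨y, hy⟩ := exists_prime_orderOf_dvd_card' ℓ h1
    exact ⟨y, y.2, by rw [← hy, Subgroup.orderOf_coe]⟩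
  have hR : Nat.card (Subgroup.zpowers y) = ℓ := by rw [Nat.card_zpowers, hyo]
  have hle : Subgroup.zpowers y ≤ V := Subgroup.zpowers_le.2 hy
  have hgR : Gd e (Subgroup.zpowers y) := by
    obtain ⟨g, hg1, hg2⟩ := hg
    exact ⟨g, Subgroup.centralizer_le hle hg1, hg2⟩
  exact K9.H35.nil_of_good hF he hR hgR hx

/-- AWN -/
theorem awn (chn : ChnStmt) (bnd : BndStmt) (div : DivStmt) : AwnStmt := by
  intro ℓ hℓ M _ hM n
  induction n using Nat.strong_induction_on with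
  | _ n ih =>
  intro hn G _ _ e he V hV hT
  have hF : GoodF ℓ (FF M) := H50.fld ℓ hℓ.out M hM
  obtain ⟨u, hu, huo⟩ := hT.gen
  by_cases hO : opCore ℓ G = ⊥
  · obtain ⟨X, _, _, f, V', hf, hTf, hTn, hyy⟩ := chn ℓ M hM n hn
      (fun i h1 h2 => ih i h2 h1) G e he V hV hT
    have hVn : V ≠ ⊥ := by
      intro h0
      have h1 := hT.card
      rw [h0, Subgroup.card_bot] at h1
      have h2 : 1 < ℓ ^ (n + 1) := Nat.one_lt_pow (by omega) hℓ.out.one_lt
      omega
    obtain ⟨χ, hχ, h1, _, h3⟩ := H75.block_case H20.nls H20.brm H63.smt H94.nch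
      (H50.dic H20.ibn H20.nls H20.brm) H50.bid H50.chp H50.ldp H50.fld hℓ.out hM hO he
      (pos_of_gd hF he hV.pg hV.gd hVn)
    have h4 := div ℓ M hM G hO e he V hV hT.comm χ hχ h1 u hu
    rw [huo] at h4
    obtain ⟨a1, -⟩ := K9.H3.lbd ℓ M hM G e he.1 he.2.1
    obtain ⟨b1, -⟩ := K9.H3.lbd ℓ M hM X f hf.1 hf.2.1
    have a2 := bnd ℓ M hM G e he V hV n hn hT
    have b2 := bnd ℓ M hM X f hf V' hTf n hn hTn
    change 1 ≤ lb e at a1
    change 1 ≤ lb f at b1
    have h7 : (Nat.card G : ℤ) ≠ 0 := by exact_mod_cast Nat.card_pos.ne'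
    have h8 : altSum ℓ M χ = (lb e : ℤ) - (lb f : ℤ) :=
      mul_left_cancel₀ h7 (h3.trans hyy)
    have h9 : altSum ℓ M χ = 0 := by
      refine Int.eq_zero_of_abs_lt_dvd h4 ?_
      rw [h8, abs_lt]
      constructor
      · omega
      · omega
    rw [← h3, h9, mul_zero]
  · refine H96.yzr ℓ (FF M) hℓ.out G ⊤ inferInstance ?_ e
    intro h0
    apply hO
    have h1 := opCore_equiv ℓ (Subgroup.topEquiv (G := G))
    rw [h0, mapE_apply, Subgroup.map_bot] at h1
    exact h1.symm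

end Pool.Agent.PP.C2.H13
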