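import Pool.Agent.Helper57_C2.Stmts
import Pool.Agent.Helper34_K9.INX

/-!
# Squad C2, row BND: the bound for the number of irreducible modular characters
-/

open scoped BigOperators

noncomputable section

namespace Pool.Agent.PP.C2.H13

open Pool.Agent.Helper51_AWC Pool.Agent.Helper79_WRA Pool.Agent.PP Pool.Agent.PP.KF
open Pool.Agent.PP.K9

attribute [local instance] Ideal.Quotient.field

theorem bnd_arith {ℓ n E m r k L : ℕ} (hℓ : 2 ≤ ℓ) (hn : 2 ≤ n) (h : E * m + 1 = ℓ) (hr : 0 < r)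
    (h1 : r * k ≤ ℓ * (E + m) * (r + (ℓ ^ (n - 1) - 1)))
    (h2 : ℓ ^ (n - 1) * (ℓ - 1) * (E + m) + r * L ≤ r * k) : L ≤ ℓ ^ n := by
  obtain ⟨p, rfl⟩ : ∃ p, ℓ = p + 1 := ⟨ℓ - 1, by omega⟩
  obtain ⟨r', rfl⟩ : ∃ r', r = r' + 1 := ⟨r - 1, by omega⟩
  have hq1 : p + 1 ≤ (p + 1) ^ (n - 1) := Nat.le_self_pow (by omega) _
  obtain ⟨q, hq⟩ : ∃ q, (p + 1) ^ (n - 1) = q + 1 := ⟨(p + 1) ^ (n - 1) - 1, by omega⟩
  have hpn : (p + 1) ^ n = (p + 1) * (q + 1) := by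
    rw [← hq, ← pow_succ']
    congr 1
    omega
  rw [hq] at h1 h2 hq1
  rw [hpn]
  simp only [Nat.add_sub_cancel] at h1 h2
  obtain ⟨s, hs⟩ : ∃ s, s = E + m := ⟨_, rfl⟩
  have hE : 0 < E := by
    rcases Nat.eq_zero_or_pos E with h' | h'
    · rw [h'] at h; omega
    · exact h'
  have hm : 0 < m := by
    rcases Nat.eq_zero_or_pos m with h' | h'
    · rw [h'] at h; omega
    · exact h'
  have hsp : s ≤ p + 1 := by
    rw [hs, ← h]
    nlinarith [Nat.mul_le_mul hE hm]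
  rw [← hs] at h1 h2
  have h3 : (q + 1) * p * s + (r' + 1) * L ≤ (p + 1) * s * (r' + 1 + q) := h2.trans h1
  have h4 : (r' + 1) * L ≤ s * ((p + 1) * r' + (q + 1)) := by nlinarith
  have h5 : s * ((p + 1) * r' + (q + 1)) ≤ (p + 1) * ((p + 1) * r' + (q + 1)) :=
    Nat.mul_le_mul_right _ hsp
  have h6 : (p + 1) * ((p + 1) * r' + (q + 1)) ≤ (p + 1) * ((q + 1) * r' + (q + 1)) :=
    Nat.mul_le_mul_left _ (Nat.add_le_add_right (Nat.mul_le_mul_right _ hq1) _)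
  have h7 : (r' + 1) * L ≤ (r' + 1) * ((p + 1) * (q + 1)) := by
    calc (r' + 1) * L ≤ (p + 1) * ((q + 1) * r' + (q + 1)) := h4.trans (h5.trans h6)
      _ = (r' + 1) * ((p + 1) * (q + 1)) := by ring
  exact Nat.le_of_mul_le_mul_left h7 (Nat.succ_pos r')

/-- BND -/
theorem bnd (ine : IneStmt) (exb : ExbStmt) (uex : UexStmt) (bn1 : Bn1Stmt) (bn2 : Bn2Stmt) :
    BndStmt := by
  intro ℓ hℓ M _ hM G _ _ e he V hV n hn hT
  have hF : GoodF ℓ (FF M) := H50.fld ℓ hℓ.out M hM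
  obtain ⟨γ, T, hI⟩ := ine ℓ (FF M) hF G e he V hV hT.comm
  obtain ⟨u, hu, huo, hut⟩ := uex ℓ M hM G e V γ T hI n hn hT
  obtain ⟨β, hβ, -⟩ := exb ℓ (FF M) hF G e V γ T hI u hu
  obtain ⟨m, hm, h1⟩ := bn1 ℓ M hM G e V γ T hI n hn hT u hu huo hut β hβ
  have h2 := bn2 ℓ M hM G e V γ T hI n hn hT u hu huo hut β hβ m hm
  have hr : 0 < (T ⊓ Cu u).relIndex T := Nat.pos_of_ne_zero Subgroup.FiniteIndex.index_ne_zero
  exact bnd_arith hℓ.out.two_le hn hm hr h1 h2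

end Pool.Agent.PP.C2.H13
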