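import Pool.Agent.Helper57_C2.Stmts

/-!
# Squad C2, row TYQ: noncyclic quotients of abelian groups of type `(ℓ ^ n, ℓ)`
-/

namespace Pool.Agent.PP.C2.H13

/-- the computation in a commutative group -/
theorem tyq_comm {ℓ : ℕ} (hℓ : ℓ.Prime) {P A : Type} [CommGroup P] [Finite P] [Group A]
    {n : ℕ} (hn : 1 ≤ n) (hcard : Nat.card P = ℓ ^ (n + 1)) {u : P} (hu : orderOf u = ℓ ^ n)
    (hnc : ¬ IsCyclic P) (p : P →* A) (hp : Function.Surjective p) (hA : ¬ IsCyclic A) :
    ∃ i : ℕ, 1 ≤ i ∧ i ≤ n ∧ Nat.card A = ℓ ^ (i + 1) ∧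
      (∃ a : A, orderOf a = ℓ ^ i) ∧ ∀ x : P, x ∈ p.ker ↔ ∃ y : P, y ^ ℓ ^ i = x := by
  have hℓ0 : 0 < ℓ := hℓ.pos
  have hH : Nat.card (Subgroup.zpowers u) = ℓ ^ n := by rw [Nat.card_zpowers, hu]
  have hQ : Nat.card (P ⧸ Subgroup.zpowers u) = ℓ := by
    have h1 := Subgroup.card_eq_card_quotient_mul_card_subgroup (Subgroup.zpowers u)
    rw [hcard, hH, pow_succ, mul_comm] at h1
    exact (Nat.eq_of_mul_eq_mul_right (pow_pos hℓ0 n) h1).symm
  have : Fact ℓ.Prime := ⟨hℓ⟩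
  have hQc : IsCyclic (P ⧸ Subgroup.zpowers u) := isCyclic_of_prime_card hQ
  -- the power map
  have hpow : ∀ x : P, x ^ ℓ ∈ Subgroup.zpowers u := by
    intro x
    rw [← QuotientGroup.eq_one_iff, QuotientGroup.mk_pow, ← hQ]
    exact pow_card_eq_one'
  have hpow2 : ∀ x : P, x ^ ℓ ∈ Subgroup.zpowers (u ^ ℓ) := by
    intro x
    obtain ⟨k, hk⟩ := (mem_powers_iff_mem_zpowers (x := u) (y := x ^ ℓ)).2 (hpow x)
    dsimp only at hk
    by_cases hd : ℓ ∣ k
    · obtain ⟨k', rfl⟩ := hd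
      rw [← hk, pow_mul]
      exact Subgroup.npow_mem_zpowers (u ^ ℓ) k'
    · exfalso
      apply hnc
      have hco : Nat.Coprime k (ℓ ^ n) := ((Nat.Prime.coprime_iff_not_dvd hℓ).2 hd).symm.pow_right n
      have h1 : orderOf (x ^ ℓ) = ℓ ^ n := by
        rw [← hk, Nat.Coprime.orderOf_pow (by rw [hu]; exact hco.symm), hu]
      have h2 : orderOf x = ℓ ^ (n + 1) := by
        have h3 : orderOf x ∣ ℓ ^ (n + 1) := by rw [← hcard]; exact orderOf_dvd_natCard x
        obtain ⟨j, hj, hj2⟩ := (Nat.dvd_prime_pow hℓ).1 h3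
        rcases Nat.lt_or_ge j (n + 1) with h4 | h4
        · exfalso
          have h5 : x ^ ℓ ^ n = 1 := by
            rw [← orderOf_dvd_iff_pow_eq_one, hj2]
            exact pow_dvd_pow ℓ (by omega)
          have h6 : (x ^ ℓ) ^ ℓ ^ (n - 1) = 1 := by
            rw [← pow_mul, ← pow_succ', Nat.sub_add_cancel hn, h5]
          have h7 := orderOf_dvd_of_pow_eq_one h6
          rw [h1] at h7
          have h8 := (Nat.pow_dvd_pow_iff_le_right hℓ.one_lt).1 h7
          omega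
        · rw [hj2]
          congr 1
          omega
      exact isCyclic_of_orderOf_eq_card x (by rw [h2, hcard])
  have huℓ : u ∉ Subgroup.zpowers (u ^ ℓ) := by
    intro h
    have h1 := mem_zpowers_pow_iff.1 h
    rw [hu] at h1
    have h2 : ℓ ∣ ℓ.gcd (ℓ ^ n) := Nat.dvd_gcd dvd_rfl (dvd_pow_self ℓ (by omega))
    rw [h1] at h2
    exact hℓ.one_lt.ne' (Nat.dvd_one.1 h2)
  -- the kernel
  have hK : p.ker ≤ Subgroup.zpowers (u ^ ℓ) := by
    intro k hk
    by_contra hkn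
    apply hA
    by_cases hkH : k ∈ Subgroup.zpowers u
    · -- then `u` is in the kernel
      obtain ⟨m, hm⟩ := (mem_powers_iff_mem_zpowers (x := u) (y := k)).2 hkH
      dsimp only at hm
      have hd : ¬ ℓ ∣ m := by
        rintro ⟨k', rfl⟩
        apply hkn
        rw [← hm, pow_mul]
        exact Subgroup.npow_mem_zpowers (u ^ ℓ) k'
      have hco : Nat.Coprime m (ℓ ^ n) := ((Nat.Prime.coprime_iff_not_dvd hℓ).2 hd).symm.pow_right n
      have huk : u ∈ Subgroup.zpowers k := by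
        rw [← hm]
        exact mem_zpowers_pow_iff.2 (by rw [hu]; exact hco)
      have hle : Subgroup.zpowers u ≤ p.ker := by
        rw [Subgroup.zpowers_le]
        exact (Subgroup.zpowers_le.2 hk) huk
      exact isCyclic_of_surjective (QuotientGroup.lift (Subgroup.zpowers u) p
        (fun x hx => hle hx)) (fun a => by
          obtain ⟨x, hx⟩ := hp a
          exact ⟨(x : P ⧸ Subgroup.zpowers u), by rw [QuotientGroup.lift_mk]; exact hx⟩)
    · refine ⟨⟨p u, fun a => ?_⟩⟩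
      obtain ⟨x, rfl⟩ := hp a
      have hk1 : (k : P ⧸ Subgroup.zpowers u) ≠ 1 := by
        rw [Ne, QuotientGroup.eq_one_iff]
        exact hkH
      have hmem : (x : P ⧸ Subgroup.zpowers u) ∈ Subgroup.zpowers (k : P ⧸ Subgroup.zpowers u) :=
        mem_zpowers_of_prime_card hQ hk1
      obtain ⟨b, hb⟩ := Subgroup.mem_zpowers_iff.1 hmem
      rw [← QuotientGroup.mk_zpow, QuotientGroup.eq] at hb
      obtain ⟨c, hc⟩ := Subgroup.mem_zpowers_iff.1 hb
      have hx : x = k ^ b * u ^ c := by rw [hc]; group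
      rw [hx, map_mul, map_zpow, map_zpow, (MonoidHom.mem_ker).1 hk, one_zpow, one_mul]
      exact Subgroup.zpow_mem_zpowers _ _
  -- the order of the image of `u`
  have hord : ∀ m : ℕ, u ^ m ∈ p.ker ↔ orderOf (p u) ∣ m := by
    intro m
    rw [MonoidHom.mem_ker, map_pow, orderOf_dvd_iff_pow_eq_one]
  have hdvd : orderOf (p u) ∣ ℓ ^ n := by
    rw [← hord, ← hu, pow_orderOf_eq_one]
    exact one_mem _
  obtain ⟨i, hin, hi⟩ := (Nat.dvd_prime_pow hℓ).1 hdvd
  have hi1 : 1 ≤ i := by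
    rcases Nat.eq_zero_or_pos i with h | h
    · exfalso
      apply huℓ
      apply hK
      have h1 : u ^ 1 ∈ p.ker := by rw [hord, hi, h, pow_zero]
      rwa [pow_one] at h1
    · exact h
  have hKz : p.ker = Subgroup.zpowers (u ^ ℓ ^ i) := by
    apply le_antisymm
    · intro x hx
      have h1 : x ∈ Subgroup.zpowers u := by
        have h2 := hK hx
        have h3 : Subgroup.zpowers (u ^ ℓ) ≤ Subgroup.zpowers u :=
          Subgroup.zpowers_le.2 (Subgroup.npow_mem_zpowers u ℓ)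
        exact h3 h2
      obtain ⟨m, hm⟩ := (mem_powers_iff_mem_zpowers (x := u) (y := x)).2 h1
      dsimp only at hm
      rw [← hm, hord, hi] at hx
      obtain ⟨c, hc⟩ := hx
      rw [← hm, hc, pow_mul]
      exact Subgroup.npow_mem_zpowers _ c
    · rw [Subgroup.zpowers_le, hord, hi]
  have hKc : Nat.card p.ker = ℓ ^ (n - i) := by
    rw [hKz, Nat.card_zpowers, orderOf_pow_of_dvd (pow_pos hℓ0 i).ne'
      (by rw [hu]; exact pow_dvd_pow ℓ hin), hu, Nat.pow_div hin hℓ0]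
  refine ⟨i, hi1, hin, ?_, ⟨p u, hi⟩, ?_⟩
  · have h1 := Subgroup.card_eq_card_quotient_mul_card_subgroup p.ker
    have h2 : Nat.card (P ⧸ p.ker) = Nat.card A :=
      Nat.card_congr (QuotientGroup.quotientKerEquivOfSurjective p hp).toEquiv
    rw [hcard, h2, hKc] at h1
    have h3 : ℓ ^ (n + 1) = ℓ ^ (i + 1) * ℓ ^ (n - i) := by
      rw [← pow_add]
      congr 1
      omega
    rw [h3] at h1
    exact (Nat.eq_of_mul_eq_mul_right (pow_pos hℓ0 _) h1).symm
  · intro x
    rw [hKz]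
    constructor
    · intro hx
      obtain ⟨m, hm⟩ := (mem_powers_iff_mem_zpowers (x := u ^ ℓ ^ i) (y := x)).2 hx
      dsimp only at hm
      exact ⟨u ^ m, by rw [← hm, ← pow_mul, ← pow_mul, mul_comm]⟩
    · rintro ⟨y, rfl⟩
      obtain ⟨m, hm⟩ := (mem_powers_iff_mem_zpowers (x := u ^ ℓ) (y := y ^ ℓ)).2 (hpow2 y)
      dsimp only at hm
      have h1 : y ^ ℓ ^ i = (u ^ ℓ ^ i) ^ m := by
        have h2 : ℓ ^ i = ℓ * ℓ ^ (i - 1) := by
          rw [← pow_succ']
          congr 1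
          omega
        rw [h2, pow_mul, ← hm, ← pow_mul, ← pow_mul, ← pow_mul]
        congr 1
        ring
      rw [h1]
      exact Subgroup.npow_mem_zpowers _ m

/-- TYQ -/
theorem tyq : TyqStmt := by
  intro ℓ hℓ P A _ _ _ n hn hcomm hcard hu hnc p hp hA
  obtain ⟨u, hu⟩ := hu
  letI : CommGroup P := { (inferInstance : Group P) with mul_comm := hcomm }
  obtain ⟨i, h1, h2, h3, h4, h5⟩ := tyq_comm hℓ.out hn hcard hu hnc p hp hA
  refine ⟨i, h1, h2, h3, h4, ?_, h5⟩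
  intro a b
  obtain ⟨x, rfl⟩ := hp a
  obtain ⟨y, rfl⟩ := hp b
  rw [← map_mul, ← map_mul, hcomm]

end Pool.Agent.PP.C2.H13
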