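import Pool.Agent.Helper57_C2.Stmts

/-!
# Squad C2, row UEX: an invariant cyclic subgroup of order `ℓ ^ n`
-/

open scoped BigOperators

noncomputable section

namespace Pool.Agent.PP.C2.H13

open Pool.Agent.Helper51_AWC Pool.Agent.Helper79_WRA Pool.Agent.PP Pool.Agent.PP.KF
open Pool.Agent.PP.K9

attribute [local instance] Ideal.Quotient.field

/-- the power map of a group of type `(ℓ ^ n, ℓ)` -/
theorem pow_mem_u {ℓ : ℕ} (hℓ : ℓ.Prime) {P : Type} [CommGroup P] [Finite P]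
    {n : ℕ} (hn : 1 ≤ n) (hcard : Nat.card P = ℓ ^ (n + 1)) {u : P} (hu : orderOf u = ℓ ^ n)
    (hnc : ¬ IsCyclic P) (x : P) : x ^ ℓ ∈ Subgroup.zpowers (u ^ ℓ) := by
  have hℓ0 : 0 < ℓ := hℓ.pos
  have hH : Nat.card (Subgroup.zpowers u) = ℓ ^ n := by rw [Nat.card_zpowers, hu]
  have hQ : Nat.card (P ⧸ Subgroup.zpowers u) = ℓ := by
    have h1 := Subgroup.card_eq_card_quotient_mul_card_subgroup (Subgroup.zpowers u)
    rw [hcard, hH, pow_succ, mul_comm] at h1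
    exact (Nat.eq_of_mul_eq_mul_right (pow_pos hℓ0 n) h1).symm
  have hpow : x ^ ℓ ∈ Subgroup.zpowers u := by
    rw [← QuotientGroup.eq_one_iff, QuotientGroup.mk_pow, ← hQ]
    exact pow_card_eq_one'
  obtain ⟨k, hk⟩ := (mem_powers_iff_mem_zpowers (x := u) (y := x ^ ℓ)).2 hpow
  dsimp only at hk
  by_cases hd : ℓ ∣ k
  · obtain ⟨k', rfl⟩ := hd
    rw [← hk, pow_mul]
    exact Subgroup.npow_mem_zpowers (u ^ ℓ) k'
  · exfalso
    apply hnc
    have hco : Nat.Coprime k (ℓ ^ n) := ((Nat.Prime.coprime_iff_not_dvd hℓ).2 hd).symm.pow_right n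
    have h1 : orderOf (x ^ ℓ) = ℓ ^ n := by
      rw [← hk, Nat.Coprime.orderOf_pow (by rw [hu]; exact hco.symm), hu]
    have h2 : orderOf x = ℓ ^ (n + 1) := by
      have h3 : orderOf x ∣ ℓ ^ (n + 1) := by rw [← hcard]; exact orderOf_dvd_natCard x
      obtain ⟨j, hj, hj2⟩ := (Nat.dvd_prime_pow hℓ).1 h3
      rcases Nat.lt_or_ge j (n + 1) with h4 | h4
      · exfalso
        have h5 : x ^ ℓ ^ n = 1 := by
          rw [← orderOf_dvd_iff_pow_eq_one, hj2]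
          exact pow_dvd_pow ℓ (by omega)
        have h6 : (x ^ ℓ) ^ ℓ ^ (n - 1) = 1 := by
          rw [← pow_mul, ← pow_succ', Nat.sub_add_cancel hn, h5]
        have h7 := orderOf_dvd_of_pow_eq_one h6
        rw [h1] at h7
        have h8 := (Nat.pow_dvd_pow_iff_le_right hℓ.one_lt).1 h7
        omega
      · rw [hj2]
        congr 1
        omega
    exact isCyclic_of_orderOf_eq_card x (by rw [h2, hcard])

/-- Teichmueller lifts -/
theorem tei {ℓ : ℕ} {a b : ℕ} (h : a ≡ b [MOD ℓ]) {n : ℕ} (hn : 1 ≤ n) :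
    a ^ ℓ ^ (n - 1) ≡ b ^ ℓ ^ (n - 1) [MOD ℓ ^ n] := by
  have h1 : ((ℓ : ℕ) : ℤ) ∣ (a : ℤ) - b := by
    have := (Nat.modEq_iff_dvd.1 h.symm)
    exact this
  have h2 := dvd_sub_pow_of_dvd_sub h1 (n - 1)
  rw [Nat.sub_add_cancel hn] at h2
  apply Nat.ModEq.symm
  rw [Nat.modEq_iff_dvd]
  push_cast
  exact h2

theorem fer {ℓ : ℕ} (hℓ : ℓ.Prime) (a k : ℕ) : a ^ ℓ ^ k ≡ a [MOD ℓ] := by
  have : Fact ℓ.Prime := ⟨hℓ⟩
  rw [← ZMod.natCast_eq_natCast_iff]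
  push_cast
  exact ZMod.pow_card_pow (a : ZMod ℓ)

theorem pow_eq_of_modEq {V : Type} [Group V] {x : V} {m a b : ℕ} (hx : x ^ m = 1)
    (h : a ≡ b [MOD m]) : x ^ a = x ^ b :=
  pow_eq_pow_iff_modEq.2 (h.of_dvd (orderOf_dvd_of_pow_eq_one hx))

/-- the averaging argument -/
theorem uex_abs {ℓ : ℕ} (hℓ : ℓ.Prime) {V : Type} [CommGroup V] [Finite V] {n : ℕ} (hn : 2 ≤ n)
    (hcard : Nat.card V = ℓ ^ (n + 1)) {u₀ : V} (hu : orderOf u₀ = ℓ ^ n) (hnc : ¬ IsCyclic V)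
    (A : Subgroup (MulAut V)) (hA : ¬ ℓ ∣ Nat.card A) :
    ∃ u : V, orderOf u = ℓ ^ n ∧ ∀ a ∈ A, a u ∈ Subgroup.zpowers u := by
  classical
  have hℓ0 : 0 < ℓ := hℓ.pos
  obtain ⟨z, hz⟩ : ∃ z : V, z = u₀ ^ ℓ ^ (n - 1) := ⟨_, rfl⟩
  have hzo : orderOf z = ℓ := by
    rw [hz, orderOf_pow_of_dvd (pow_pos hℓ0 _).ne' (by rw [hu]; exact pow_dvd_pow ℓ (by omega)),
      hu, Nat.pow_div (by omega) hℓ0]
    have : n - (n - 1) = 1 := by omega
    rw [this, pow_one]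
  have hzℓ : z ^ ℓ = 1 := by rw [← hzo, pow_orderOf_eq_one]
  have hpm : ∀ x : V, ∃ c : ℕ, x ^ ℓ ^ (n - 1) = z ^ c := by
    intro x
    obtain ⟨c, hc⟩ := (mem_powers_iff_mem_zpowers (x := u₀ ^ ℓ) (y := x ^ ℓ)).2
      (pow_mem_u hℓ (by omega) hcard hu hnc x)
    dsimp only at hc
    refine ⟨c, ?_⟩
    have h2 : ℓ ^ (n - 1) = ℓ * ℓ ^ (n - 2) := by
      rw [← pow_succ']
      congr 1
      omega
    rw [hz, h2, pow_mul, ← hc, ← pow_mul, ← pow_mul, ← pow_mul]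
    congr 1
    ring
  have hexp : ∀ x : V, x ^ ℓ ^ n = 1 := by
    intro x
    obtain ⟨c, hc⟩ := hpm x
    have h2 : ℓ ^ n = ℓ ^ (n - 1) * ℓ := by
      rw [← pow_succ]
      congr 1
      omega
    rw [h2, pow_mul, hc, ← pow_mul, mul_comm, pow_mul, hzℓ, one_pow]
  -- the action on the subgroup of order `ℓ`
  have hact : ∀ a : MulAut V, ∃ c : ℕ, a z = z ^ c := by
    intro a
    obtain ⟨c, hc⟩ := hpm (a u₀)
    refine ⟨c, ?_⟩
    rw [← hc, hz, map_pow]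
  choose c hc using hact
  have hcm : ∀ a b : MulAut V, c (a * b) ≡ c a * c b [MOD ℓ] := by
    intro a b
    have h1 : z ^ c (a * b) = z ^ (c a * c b) := by
      rw [← hc, MulAut.mul_apply, hc b, map_pow, hc a, ← pow_mul]
    rw [pow_eq_pow_iff_modEq, hzo] at h1
    exact h1
  have hc1 : c 1 ≡ 1 [MOD ℓ] := by
    have h1 : z ^ c 1 = z ^ 1 := by
      rw [← hc, MulAut.one_apply, pow_one]
    rw [pow_eq_pow_iff_modEq, hzo] at h1
    exact h1
  obtain ⟨α, hα⟩ : ∃ α : MulAut V → ℕ, ∀ a, α a = c a ^ ℓ ^ (n - 1) := ⟨_, fun _ => rfl⟩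
  have hαm : ∀ a b : MulAut V, α (a * b) ≡ α a * α b [MOD ℓ ^ n] := by
    intro a b
    rw [hα, hα, hα, ← mul_pow]
    exact tei (hcm a b) (by omega)
  have hαc : ∀ a : MulAut V, α a ≡ c a [MOD ℓ] := by
    intro a
    rw [hα]
    exact fer hℓ _ _
  have : Fintype A := Fintype.ofFinite A
  obtain ⟨u, hudef⟩ : ∃ u : V, u = ∏ a : A, (a : MulAut V) u₀ ^ α (a : MulAut V)⁻¹ := ⟨_, rfl⟩
  have hinv : ∀ b ∈ A, b u = u ^ α b := by
    intro b hb
    rw [hudef, map_prod, ← Finset.prod_pow]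
    refine Fintype.prod_equiv (Equiv.mulLeft (⟨b, hb⟩ : A)) _ _ fun a => ?_
    rw [map_pow, ← pow_mul]
    have e1 : ((Equiv.mulLeft (⟨b, hb⟩ : A)) a : MulAut V) = b * a := rfl
    rw [e1, MulAut.mul_apply]
    apply pow_eq_of_modEq (hexp _)
    have e2 : (a : MulAut V)⁻¹ = (b * (a : MulAut V))⁻¹ * b := by group
    have e3 := hαm (b * (a : MulAut V))⁻¹ b
    rw [← e2] at e3
    exact e3
  have hup : u ^ ℓ ^ (n - 1) = z ^ Nat.card A := by
    rw [hudef, ← Finset.prod_pow]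
    have h1 : ∀ a : A, ((a : MulAut V) u₀ ^ α (a : MulAut V)⁻¹) ^ ℓ ^ (n - 1) = z := by
      intro a
      rw [← pow_mul, mul_comm, pow_mul, ← map_pow, ← hz, hc, ← pow_mul]
      have h2 : c (a : MulAut V) * α (a : MulAut V)⁻¹ ≡ 1 [MOD ℓ] := by
        have h3 : c (a : MulAut V) * α (a : MulAut V)⁻¹ ≡
            c (a : MulAut V) * c (a : MulAut V)⁻¹ [MOD ℓ] := (hαc _).mul_left _
        have h4 := hcm (a : MulAut V) (a : MulAut V)⁻¹
        rw [mul_inv_cancel] at h4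
        exact h3.trans (h4.symm.trans hc1)
      rw [pow_eq_of_modEq hzℓ h2, pow_one]
    rw [Finset.prod_congr rfl fun a _ => h1 a, Finset.prod_const, Finset.card_univ,
      ← Nat.card_eq_fintype_card]
  have huo : orderOf u = ℓ ^ n := by
    obtain ⟨k, rfl⟩ : ∃ k, n = k + 1 := ⟨n - 1, by omega⟩
    have : Fact ℓ.Prime := ⟨hℓ⟩
    refine orderOf_eq_prime_pow ?_ (hexp u)
    intro h1
    rw [Nat.add_sub_cancel] at hup
    rw [h1] at hup
    have h2 := orderOf_dvd_of_pow_eq_one hup.symm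
    rw [hzo] at h2
    exact hA h2
  refine ⟨u, huo, fun a ha => ?_⟩
  rw [hinv a ha]
  exact Subgroup.npow_mem_zpowers u _

/-- UEX -/
theorem uex (inx : Pool.Agent.PP.K9.InxStmt) : UexStmt := by
  intro ℓ hℓ M _ hM G _ _ e V γ T hI n hn hT
  obtain ⟨u₀, hu₀V, hu₀⟩ := hT.gen
  have hinx := inx ℓ M hM G e hI.blk V hI.tp hI.comm γ hI.gam.off hI.gam.blk hI.und
  rw [← hI.stb] at hinx
  have hTN : T ≤ Subgroup.normalizer (V : Set G) := by rw [hI.stb]; exact inf_le_left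
  letI : CommGroup V := { (inferInstance : Group V) with
    mul_comm := fun a b => Subtype.ext (hT.comm a a.2 b b.2) }
  obtain ⟨φ, hφ⟩ : ∃ φ : T →* MulAut V, φ = V.normalizerMonoidHom.comp (Subgroup.inclusion hTN) :=
    ⟨_, rfl⟩
  have hker : φ.ker = (Subgroup.centralizer (V : Set G)).subgroupOf T := by
    rw [hφ, ← MonoidHom.comap_ker, Subgroup.normalizerMonoidHom_ker]
    ext x
    rw [Subgroup.mem_comap, Subgroup.mem_subgroupOf, Subgroup.mem_subgroupOf]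
    rfl
  have hcardA : ¬ ℓ ∣ Nat.card φ.range := by
    rw [← Subgroup.index_ker, hker]
    exact hinx
  have hu1 : orderOf (⟨u₀, hu₀V⟩ : V) = ℓ ^ n := by
    rw [← Subgroup.orderOf_coe]
    exact hu₀
  obtain ⟨u, hu, huA⟩ := uex_abs hℓ.out hn hT.card hu1 hT.ncyc φ.range hcardA
  refine ⟨(u : G), u.2, by rw [Subgroup.orderOf_coe]; exact hu, fun t ht => ?_⟩
  have h1 := huA (φ ⟨t, ht⟩) ⟨⟨t, ht⟩, rfl⟩
  obtain ⟨k, hk⟩ := Subgroup.mem_zpowers_iff.1 h1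
  refine Subgroup.mem_zpowers_iff.2 ⟨k, ?_⟩
  have h2 : ((u ^ k : V) : G) = ((φ ⟨t, ht⟩ u : V) : G) := by rw [hk]
  rw [Subgroup.coe_zpow] at h2
  rw [h2, hφ]
  rfl

end Pool.Agent.PP.C2.H13
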